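import Pool.Agent.H5.PNT.PNT
import Pool.Agent.H5.Short.Second
import Pool.Agent.H6.Dens

/-!
Primes of the form `m^3 + k`: definitions, counting lemmas for residue classes, cube roots of unity
modulo primes `p ≡ 1 mod 3`, and large products over such primes.
-/

namespace Pool.Agent.H33.Cubic

open Finset Filter Topology

/-- The number of integers `m` with `|m| ≤ M` such that `m ^ 3 + k` is a prime number. -/
noncomputable def primeCount (k M : ℕ) : ℕ :=
  Set.ncard {m : ℤ | |m| ≤ M ∧ ∃ p : ℕ, p.Prime ∧ m ^ 3 + (k : ℤ) = p}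

/-- `k` is the cube of an integer. -/
def IsCube (k : ℕ) : Prop := ∃ a : ℤ, a ^ 3 = (k : ℤ)

/-- number of `1 ≤ m ≤ M` with `m ^ 3 + k` prime. -/
def nk (k M : ℕ) : ℕ := ((Icc 1 M).filter (fun m => (m ^ 3 + k).Prime)).card

open Classical in
theorem primeCount_eq (k M : ℕ) : primeCount k M =
    ((Icc (-(M : ℤ)) M).filter (fun m : ℤ => ∃ p : ℕ, p.Prime ∧ m ^ 3 + (k : ℤ) = p)).card := by
  unfold primeCount
  rw [← Set.ncard_coe_finset]
  congr 1
  ext m
  simp [abs_le]

theorem nk_le_primeCount {k M M' : ℕ} (h : M' ≤ M) : nk k M' ≤ primeCount k M := by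
  classical
  rw [primeCount_eq, nk]
  apply Finset.card_le_card_of_injOn (fun m : ℕ => (m : ℤ))
  · intro m hm
    rw [mem_coe, mem_filter, mem_Icc] at hm
    rw [mem_coe, mem_filter, mem_Icc]
    have h1 : -(M : ℤ) ≤ (m : ℤ) ∧ (m : ℤ) ≤ M := ⟨by omega, by omega⟩
    exact ⟨h1, m ^ 3 + k, hm.2, by push_cast; rfl⟩
  · intro a _ b _ hab
    have hab' : (a : ℤ) = (b : ℤ) := hab
    exact_mod_cast hab'

/-- one residue class in an initial interval. -/
theorem card_class (M q : ℕ) (t : ZMod q) :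
    ((Icc 1 M).filter (fun n : ℕ => (n : ZMod q) = t)).card ≤ M / q + 1 := by
  have : ((Icc 1 M).filter (fun n : ℕ => (n : ZMod q) = t)).card ≤ (range (M / q + 1)).card := by
    apply Finset.card_le_card_of_injOn (fun n => n / q)
    · intro n hn
      rw [mem_coe, mem_filter, mem_Icc] at hn
      rw [mem_coe, mem_range]
      exact Nat.lt_succ_of_le (Nat.div_le_div_right hn.1.2)
    · intro a ha b hb hab
      rw [mem_coe, mem_filter, mem_Icc] at ha hb
      have h1 : (a : ZMod q) = (b : ZMod q) := ha.2.trans hb.2.symm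
      rw [ZMod.natCast_eq_natCast_iff'] at h1
      simp only at hab
      rw [← Nat.div_add_mod a q, ← Nat.div_add_mod b q, hab, h1]
  rwa [card_range] at this

theorem card_classes (M q : ℕ) (T : Finset (ZMod q)) :
    ((Icc 1 M).filter (fun n : ℕ => (n : ZMod q) ∈ T)).card ≤ T.card * (M / q + 1) := by
  classical
  have h1 : (Icc 1 M).filter (fun n : ℕ => (n : ZMod q) ∈ T) =
      T.biUnion (fun t => (Icc 1 M).filter (fun n : ℕ => (n : ZMod q) = t)) := by
    ext n
    simp only [mem_filter, mem_biUnion]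
    constructor
    · rintro ⟨h, h'⟩
      exact ⟨_, h', h, rfl⟩
    · rintro ⟨t, ht, h, rfl⟩
      exact ⟨h, ht⟩
  rw [h1]
  refine card_biUnion_le.trans ?_
  rw [← smul_eq_mul, ← sum_const]
  exact sum_le_sum fun t _ => card_class M q t

/-- at most three cube roots modulo a prime -/
theorem card_cube_roots (p : ℕ) [Fact p.Prime] (c : ZMod p) :
    (univ.filter (fun x : ZMod p => x ^ 3 = c)).card ≤ 3 := by
  classical
  have h1 : univ.filter (fun x : ZMod p => x ^ 3 = c) ⊆ (Polynomial.nthRoots 3 c).toFinset := by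
    intro x hx
    rw [mem_filter] at hx
    rw [Multiset.mem_toFinset, Polynomial.mem_nthRoots (by norm_num)]
    exact hx.2
  refine (card_le_card h1).trans ((Multiset.toFinset_card_le _).trans ?_)
  exact Polynomial.card_nthRoots 3 c

theorem exists_cube_root_unity (p : ℕ) [Fact p.Prime] (hp : p % 3 = 1) :
    ∃ u : ZMod p, u ^ 3 = 1 ∧ u ≠ 1 := by
  have h3 : Fact (Nat.Prime 3) := ⟨Nat.prime_three⟩
  have hcard : Fintype.card (ZMod p)ˣ = p - 1 := ZMod.card_units p
  have hdvd : 3 ∣ Fintype.card (ZMod p)ˣ := by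
    rw [hcard]
    have := (Fact.out : p.Prime).two_le
    omega
  obtain ⟨u, hu⟩ := exists_prime_orderOf_dvd_card 3 hdvd
  refine ⟨(u : ZMod p), ?_, ?_⟩
  · have h := pow_orderOf_eq_one u
    rw [hu] at h
    rw [← Units.val_pow_eq_pow_val, h, Units.val_one]
  · intro h
    have h1 : u = 1 := Units.ext (by rw [h, Units.val_one])
    rw [h1, orderOf_one] at hu
    omega

/-- there is a non-cube modulo `p ≡ 1 mod 3` -/
theorem exists_not_cube (p : ℕ) [Fact p.Prime] (hp : p % 3 = 1) :
    ∃ g : ZMod p, ∀ x : ZMod p, x ^ 3 ≠ g := by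
  obtain ⟨u, hu, hu1⟩ := exists_cube_root_unity p hp
  by_contra hcon
  push Not at hcon
  have hsurj : Function.Surjective (fun x : ZMod p => x ^ 3) := fun g => hcon g
  have hinj := Finite.injective_iff_surjective.2 hsurj
  exact hu1 (hinj (by simp only [hu, one_pow]))

/-- at least three cube roots of unity -/
theorem three_le_card_roots (p : ℕ) [Fact p.Prime] (hp : p % 3 = 1) :
    3 ≤ (univ.filter (fun x : ZMod p => x ^ 3 = 1)).card := by
  classical
  obtain ⟨u, hu, hu1⟩ := exists_cube_root_unity p hp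
  have hu0 : u ≠ 0 := by
    rintro rfl
    norm_num at hu
  have h2 : u ^ 2 ≠ 1 := by
    intro h
    apply hu1
    calc u = u ^ 3 := by rw [pow_succ, h, one_mul]
      _ = 1 := hu
  have h3 : u ^ 2 ≠ u := by
    intro h
    apply hu1
    have h4 : u * u = u * 1 := by rw [mul_one, ← pow_two, h]
    exact mul_left_cancel₀ hu0 h4
  have hsub : ({1, u, u ^ 2} : Finset (ZMod p)) ⊆ univ.filter (fun x : ZMod p => x ^ 3 = 1) := by
    intro x hx
    simp only [mem_insert, mem_singleton] at hx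
    rw [mem_filter]
    refine ⟨mem_univ _, ?_⟩
    rcases hx with rfl | rfl | rfl
    · simp
    · exact hu
    · rw [← pow_mul, show 2 * 3 = 3 * 2 by norm_num, pow_mul, hu, one_pow]
  have hc : ({1, u, u ^ 2} : Finset (ZMod p)).card = 3 := by
    rw [card_insert_of_notMem, card_insert_of_notMem, card_singleton]
    · rw [mem_singleton]
      exact fun h => h3 h.symm
    · rw [mem_insert, mem_singleton]
      rintro (h | h)
      · exact hu1 h.symm
      · exact h2 h.symm
  have h5 := card_le_card hsub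
  rw [hc] at h5
  exact h5

/-- finite sets of primes `≡ 1 mod 3` with large reciprocal sum -/
theorem exists_primes (G : ℝ) : ∃ s : Finset ℕ, (∀ p ∈ s, p.Prime ∧ p % 3 = 1) ∧
    G ≤ ∑ p ∈ s, (1 : ℝ) / p := by
  have h := Pool.Agent.H6.not_summable_inv_prime_mod (q := 3) (a := 1) isUnit_one
  set f : ℕ → ℝ := {p : ℕ | p.Prime ∧ (p : ZMod 3) = 1}.indicator (fun n : ℕ => (1 : ℝ) / n)
    with hf
  have hf0 : ∀ n, 0 ≤ f n := fun n => Set.indicator_nonneg (fun n _ => by positivity) n
  rw [not_summable_iff_tendsto_nat_atTop_of_nonneg hf0] at h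
  obtain ⟨n, hn⟩ := (h.eventually_ge_atTop G).exists
  classical
  refine ⟨(range n).filter (fun p => p.Prime ∧ (p : ZMod 3) = 1), ?_, ?_⟩
  · intro p hp
    rw [mem_filter] at hp
    refine ⟨hp.2.1, ?_⟩
    have h1 : ((p : ℕ) : ZMod 3) = ((1 : ℕ) : ZMod 3) := by rw [hp.2.2, Nat.cast_one]
    rw [ZMod.natCast_eq_natCast_iff'] at h1
    exact h1
  · refine hn.trans (le_of_eq ?_)
    rw [sum_filter]
    apply sum_congr rfl
    intro p _
    rw [hf, Set.indicator_apply]
    rfl

theorem prod_ge (s : Finset ℕ) (hs : ∀ p ∈ s, p.Prime ∧ p % 3 = 1) :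
    ∑ p ∈ s, (1 : ℝ) / p ≤ ∏ p ∈ s, ((p : ℝ) / (p - 1)) := by
  classical
  have key : 1 + ∑ p ∈ s, (1 : ℝ) / p ≤ ∏ p ∈ s, ((p : ℝ) / (p - 1)) := by
    induction s using Finset.induction_on with
    | empty => simp
    | insert p s hps ih =>
      have hp := (hs p (mem_insert_self _ _)).1
      have ih := ih (fun q hq => hs q (mem_insert_of_mem hq))
      rw [sum_insert hps, prod_insert hps]
      have hp2 : (2 : ℝ) ≤ p := by exact_mod_cast hp.two_le
      have h0 : 0 ≤ ∑ p ∈ s, (1 : ℝ) / p := sum_nonneg fun q _ => by positivity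
      have h1 : 1 + 1 / (p : ℝ) ≤ (p : ℝ) / (p - 1) := by
        rw [le_div_iff₀ (by linarith)]
        have : (1 : ℝ) / p * p = 1 := by field_simp
        nlinarith [show (0 : ℝ) < 1 / p by positivity]
      have h2 : 0 ≤ (1 : ℝ) / p := by positivity
      calc 1 + (1 / (p : ℝ) + ∑ p ∈ s, (1 : ℝ) / p)
          ≤ (1 + 1 / (p : ℝ)) * (1 + ∑ p ∈ s, (1 : ℝ) / p) := by nlinarith
        _ ≤ _ := mul_le_mul h1 ih (by positivity) (by linarith)
  linarith

theorem prod_le (s : Finset ℕ) (hs : ∀ p ∈ s, p.Prime ∧ p % 3 = 1) :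
    ∏ p ∈ s, (((p : ℝ) - 3) / (p - 1)) ≤ Real.exp (- ∑ p ∈ s, (1 : ℝ) / p) := by
  rw [← sum_neg_distrib, Real.exp_sum]
  apply Finset.prod_le_prod
  · intro p hp
    have h7 : 4 ≤ p := by
      have h1 := hs p hp
      have h2 := h1.1.two_le
      have h3 := h1.2
      omega
    have h8 : (4 : ℝ) ≤ p := by exact_mod_cast h7
    apply div_nonneg <;> linarith
  · intro p hp
    have h7 : 4 ≤ p := by
      have h1 := hs p hp
      have h2 := h1.1.two_le
      have h3 := h1.2
      omega
    have h8 : (4 : ℝ) ≤ p := by exact_mod_cast h7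
    have h9 := Real.add_one_le_exp (-(1 / (p : ℝ)))
    refine le_trans ?_ h9
    rw [div_le_iff₀ (by linarith)]
    have : (1 : ℝ) / p * p = 1 := by field_simp
    nlinarith [show (0 : ℝ) < 1 / p by positivity]

end Pool.Agent.H33.Cubic
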