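import Pool.Agent.H33.Cubic.Many

/-!
Positive proportion of `k` with few primes `m ^ 3 + k`.
-/

namespace Pool.Agent.H33.Cubic

open Finset Filter Topology Pool.Agent.H5.Short Pool.Agent.H5.PNT

/-- residues `n` modulo `∏ p` with `n ^ 3 ≠ 1` modulo every `p ∈ s`. -/
def Rset (s : Finset ℕ) : Finset ℕ :=
  (range (∏ p ∈ s, p)).filter (fun n => ∀ p ∈ s, (n : ZMod p) ^ 3 ≠ 1)

theorem card_R_prime (p : ℕ) (hp : p.Prime ∧ p % 3 = 1) :
    ((range p).filter (fun n : ℕ => (n : ZMod p) ^ 3 ≠ 1)).card ≤ p - 3 := by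
  classical
  have : Fact p.Prime := ⟨hp.1⟩
  have h1 := three_le_card_roots p hp.2
  have h2 : (univ.filter (fun x : ZMod p => x ^ 3 = 1)).card +
      (univ.filter (fun x : ZMod p => ¬ x ^ 3 = 1)).card = p := by
    rw [card_filter_add_card_filter_not, card_univ, ZMod.card]
  have h3 : ((range p).filter (fun n : ℕ => (n : ZMod p) ^ 3 ≠ 1)).card ≤
      (univ.filter (fun x : ZMod p => ¬ x ^ 3 = 1)).card := by
    apply Finset.card_le_card_of_injOn (fun n : ℕ => (n : ZMod p))
    · intro n hn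
      rw [mem_coe, mem_filter] at hn
      rw [mem_coe, mem_filter]
      exact ⟨mem_univ _, hn.2⟩
    · intro a ha b hb hab
      rw [mem_coe, mem_filter, mem_range] at ha hb
      have hab' : (a : ZMod p) = (b : ZMod p) := hab
      rw [ZMod.natCast_eq_natCast_iff', Nat.mod_eq_of_lt ha.1, Nat.mod_eq_of_lt hb.1] at hab'
      exact hab'
  omega

theorem card_Rset (s : Finset ℕ) (hs : ∀ p ∈ s, p.Prime ∧ p % 3 = 1) :
    (Rset s).card ≤ ∏ p ∈ s, (p - 3) := by
  classical
  induction s using Finset.induction_on with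
  | empty => unfold Rset; simp
  | insert p s hps ih =>
    have hp := hs p (mem_insert_self _ _)
    have ih := ih (fun q hq => hs q (mem_insert_of_mem hq))
    have hcop : p.Coprime (∏ q ∈ s, q) := by
      apply Nat.Coprime.prod_right
      intro q hq
      rw [Nat.coprime_primes hp.1 (hs q (mem_insert_of_mem hq)).1]
      rintro rfl
      exact hps hq
    have hQ0 : 0 < ∏ q ∈ s, q := prod_pos fun q hq => (hs q (mem_insert_of_mem hq)).1.pos
    rw [prod_insert hps]
    refine le_trans ?_ (Nat.mul_le_mul (card_R_prime p hp) ih)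
    rw [← card_product]
    apply Finset.card_le_card_of_injOn (fun n : ℕ => (n % p, n % (∏ q ∈ s, q)))
    · intro n hn
      unfold Rset at hn
      rw [mem_coe, mem_filter, mem_range, prod_insert hps] at hn
      rw [mem_coe, mem_product]
      refine ⟨?_, ?_⟩
      · change n % p ∈ (range p).filter (fun n : ℕ => (n : ZMod p) ^ 3 ≠ 1)
        rw [mem_filter, mem_range]
        refine ⟨Nat.mod_lt _ hp.1.pos, ?_⟩
        rw [ZMod.natCast_mod]
        exact hn.2 p (mem_insert_self _ _)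
      · change n % (∏ q ∈ s, q) ∈ Rset s
        unfold Rset
        rw [mem_filter, mem_range]
        refine ⟨Nat.mod_lt _ hQ0, ?_⟩
        intro q hq
        have h1 : ((n % (∏ q ∈ s, q) : ℕ) : ZMod q) = (n : ZMod q) := by
          rw [ZMod.natCast_eq_natCast_iff]
          exact (Nat.mod_modEq n _).of_dvd (dvd_prod_of_mem _ hq)
        rw [h1]
        exact hn.2 q (mem_insert_of_mem hq)
    · intro a ha b hb hab
      unfold Rset at ha hb
      rw [mem_coe, mem_filter, mem_range, prod_insert hps] at ha hb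
      have h1 : a % p = b % p := (Prod.ext_iff.1 hab).1
      have h2 : a % (∏ q ∈ s, q) = b % (∏ q ∈ s, q) := (Prod.ext_iff.1 hab).2
      have h3 : a ≡ b [MOD p * ∏ q ∈ s, q] :=
        (Nat.modEq_and_modEq_iff_modEq_mul hcop).1 ⟨h1, h2⟩
      have h4 : a % (p * ∏ q ∈ s, q) = b % (p * ∏ q ∈ s, q) := h3
      rwa [Nat.mod_eq_of_lt ha.1, Nat.mod_eq_of_lt hb.1] at h4

/-- integers in `[-M, M]` in given residue classes. -/
theorem card_int_classes (M Q : ℕ) (T : Finset (ZMod Q)) :
    ((Icc (-(M : ℤ)) M).filter (fun m : ℤ => (m : ZMod Q) ∈ T)).card ≤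
      T.card * ((2 * M + 1) / Q + 1) := by
  classical
  refine le_trans ?_ (Nat.mul_le_mul_right _ (card_image_le (s := T)
    (f := fun x => x + ((M + 1 : ℕ) : ZMod Q))))
  refine le_trans ?_ (card_classes (2 * M + 1) Q
    (T.image (fun x => x + ((M + 1 : ℕ) : ZMod Q))))
  apply Finset.card_le_card_of_injOn (fun m : ℤ => (m + M + 1).toNat)
  · intro m hm
    rw [mem_coe, mem_filter, mem_Icc] at hm
    rw [mem_coe, mem_filter, mem_Icc]
    have h1 : (((m + M + 1).toNat : ℕ) : ℤ) = m + M + 1 := Int.toNat_of_nonneg (by omega)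
    have h0 : 1 ≤ (m + M + 1).toNat ∧ (m + M + 1).toNat ≤ 2 * M + 1 := ⟨by omega, by omega⟩
    refine ⟨h0, ?_⟩
    rw [mem_image]
    refine ⟨(m : ZMod Q), hm.2, ?_⟩
    have h2 : ((((m + M + 1).toNat : ℕ) : ℤ) : ZMod Q) = ((m + M + 1 : ℤ) : ZMod Q) := by rw [h1]
    push_cast at h2
    push_cast
    rw [h2]
    ring
  · intro a ha b hb hab
    rw [mem_coe, mem_filter, mem_Icc] at ha hb
    have hab' : (a + M + 1).toNat = (b + M + 1).toNat := hab
    omega

theorem card_cubes (X : ℕ) [DecidablePred IsCube] :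
    ((Icc 1 X).filter IsCube).card ≤ Nat.sqrt X := by
  classical
  have h1 : (Icc 1 X).filter IsCube ⊆ (Icc 1 (Nat.sqrt X)).image (fun a => a ^ 3) := by
    intro k hk
    rw [mem_filter, mem_Icc] at hk
    obtain ⟨⟨hk1, hk2⟩, a, ha⟩ := hk
    rw [mem_image]
    have ha0 : 0 < a := by
      by_contra h
      push Not at h
      have : a ^ 3 ≤ 0 := by
        have h3 : a ^ 3 = a * (a * a) := by ring
        rw [h3]
        exact mul_nonpos_of_nonpos_of_nonneg h (mul_self_nonneg a)
      omega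
    lift a to ℕ using ha0.le
    have ha' : a ^ 3 = k := by exact_mod_cast ha
    have ha1 : 1 ≤ a := by omega
    refine ⟨a, ?_, ha'⟩
    rw [mem_Icc, Nat.le_sqrt]
    refine ⟨ha1, ?_⟩
    calc a * a ≤ a * a * a := Nat.le_mul_of_pos_right _ ha1
      _ = a ^ 3 := by ring
      _ ≤ X := by omega
  refine (card_le_card h1).trans (card_image_le.trans ?_)
  rw [Nat.card_Icc]
  omega

/-- Positive proportion of `k` with few primes. -/
theorem few (ε A : ℝ) (hε : 0 < ε) (hA : 0 < A) :
    ∃ c : ℝ, 0 < c ∧ ∃ X₀ : ℕ, ∀ X M : ℕ, X₀ ≤ X → ε * Real.log X ≤ M → M ^ 3 ≤ X →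
      c * X ≤ ((Set.ncard {k : ℕ | 1 ≤ k ∧ k ≤ X ∧ ¬ IsCube k ∧
        (primeCount k M : ℝ) ≤ M / (A * Real.log X)} : ℕ) : ℝ) := by
  classical
  obtain ⟨s, hs, hsG⟩ := exists_primes (1 + |Real.log (48 * A)|)
  have hsne : s.Nonempty := by
    rw [nonempty_iff_ne_empty]
    rintro rfl
    rw [sum_empty] at hsG
    have := abs_nonneg (Real.log (48 * A))
    linarith
  set Q : ℕ := ∏ p ∈ s, p with hQ
  have hQ0 : 0 < Q := prod_pos fun p hp => (hs p hp).1.pos
  have hQ2 : 2 ≤ Q := by
    obtain ⟨p, hp⟩ := hsne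
    exact (hs p hp).1.two_le.trans (Nat.le_of_dvd hQ0 (dvd_prod_of_mem _ hp))
  have : NeZero Q := ⟨hQ0.ne'⟩
  have hphi0 : (0 : ℝ) < Q.totient := by exact_mod_cast Nat.totient_pos.2 hQ0
  have hQR : (0 : ℝ) < Q := by exact_mod_cast hQ0
  set P : ℕ := ∏ p ∈ s, (p - 3) with hP
  have hge4 : ∀ p ∈ s, 4 ≤ p := by
    intro p hp
    have h1 := hs p hp
    have h2 := h1.1.two_le
    have h3 := h1.2
    omega
  have hratio : (P : ℝ) / Q.totient = ∏ p ∈ s, (((p : ℝ) - 3) / (p - 1)) := by
    have h1 : Q.totient = ∏ p ∈ s, (p - 1) := by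
      have h2 : ∀ t : Finset ℕ, t ⊆ s → (∏ p ∈ t, p).totient = ∏ p ∈ t, (p - 1) := by
        intro t
        induction t using Finset.induction_on with
        | empty => intro _; simp
        | insert p t hpt ih =>
          intro hsub
          rw [prod_insert hpt, prod_insert hpt, Nat.totient_mul,
            ih (fun q hq => hsub (mem_insert_of_mem hq)),
            Nat.totient_prime (hs p (hsub (mem_insert_self _ _))).1]
          apply Nat.Coprime.prod_right
          intro q hq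
          rw [Nat.coprime_primes (hs p (hsub (mem_insert_self _ _))).1
            (hs q (hsub (mem_insert_of_mem hq))).1]
          rintro rfl
          exact hpt hq
      exact h2 s (Subset.refl _)
    rw [h1, hP, prod_div_distrib]
    push_cast
    congr 1
    · apply prod_congr rfl
      intro p hp
      rw [Nat.cast_sub (by have := hge4 p hp; omega)]
      norm_num
    · apply prod_congr rfl
      intro p hp
      rw [Nat.cast_sub (hs p hp).1.one_lt.le, Nat.cast_one]
  have hPphi : 12 * A * ((P : ℝ) / Q.totient) ≤ 1 / 4 := by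
    have h1 : (P : ℝ) / Q.totient ≤ Real.exp (-(1 + |Real.log (48 * A)|)) := by
      rw [hratio]
      refine (prod_le s hs).trans ?_
      apply Real.exp_le_exp.2
      linarith
    have h2 : Real.exp (-(1 + |Real.log (48 * A)|)) ≤ 1 / (48 * A) := by
      have h3 : 0 < 48 * A := by positivity
      have h4 : (1 : ℝ) / (48 * A) = Real.exp (-Real.log (48 * A)) := by
        rw [Real.exp_neg, Real.exp_log h3, one_div]
      rw [h4]
      apply Real.exp_le_exp.2
      have := le_abs_self (Real.log (48 * A))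
      linarith
    calc 12 * A * ((P : ℝ) / Q.totient) ≤ 12 * A * (1 / (48 * A)) :=
          mul_le_mul_of_nonneg_left (h1.trans h2) (by positivity)
      _ = 1 / 4 := by field_simp; norm_num
  set φ : ℝ := (Q.totient : ℝ) with hφ
  refine ⟨1 / (4 * Q), by positivity, ?_⟩
  obtain ⟨X1, hX1⟩ := eventually_atTop.1 (upper_primes Q)
  have hev2 : ∀ᶠ X : ℕ in atTop, (Q : ℝ) ≤ ε * Real.log X := by
    have h1 : Tendsto (fun X : ℕ => ε * Real.log X) atTop atTop :=
      (Real.tendsto_log_atTop.comp tendsto_natCast_atTop_atTop).const_mul_atTop hε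
    exact h1.eventually_ge_atTop _
  have hev3 : ∀ᶠ X : ℕ in atTop, 3 * A * Real.log X ≤ X / (8 * Q) := by
    have h1 : Tendsto (fun x : ℝ => Real.log x / x) atTop (𝓝 0) := by
      have := Real.isLittleO_log_id_atTop.tendsto_div_nhds_zero
      simpa using this
    have h2 := h1.comp (tendsto_natCast_atTop_atTop (R := ℝ))
    have h3 : (0 : ℝ) < 1 / (24 * A * Q) := by positivity
    filter_upwards [h2.eventually_lt_const h3, eventually_gt_atTop 0] with X hX hXpos
    have hXR : (0 : ℝ) < X := by exact_mod_cast hXpos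
    simp only [Function.comp_apply] at hX
    rw [div_lt_iff₀ hXR] at hX
    have h4 : 3 * A * Real.log X ≤ 3 * A * (1 / (24 * A * Q) * X) :=
      mul_le_mul_of_nonneg_left hX.le (by positivity)
    refine h4.trans (le_of_eq ?_)
    field_simp
    norm_num
  have hev4 : ∀ᶠ X : ℕ in atTop, ((Nat.sqrt X : ℕ) : ℝ) ≤ X / (8 * Q) := by
    filter_upwards [eventually_ge_atTop ((8 * Q) ^ 2)] with X hX
    have h1 : 8 * Q ≤ Nat.sqrt X := by
      rw [Nat.le_sqrt]
      calc 8 * Q * (8 * Q) = (8 * Q) ^ 2 := by ring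
        _ ≤ X := hX
    have h2 : Nat.sqrt X * (8 * Q) ≤ X :=
      (Nat.mul_le_mul_left _ h1).trans (Nat.sqrt_le X)
    rw [le_div_iff₀ (by positivity)]
    exact_mod_cast h2
  obtain ⟨X2, hX2⟩ := eventually_atTop.1 hev2
  obtain ⟨X3, hX3⟩ := eventually_atTop.1 hev3
  obtain ⟨X4, hX4⟩ := eventually_atTop.1 hev4
  refine ⟨max (max (max X1 X2) (max X3 X4)) (8 * Q), ?_⟩
  intro X M hX hM hMX
  have hXa : X1 ≤ X := by omega
  have hXb : X2 ≤ X := by omega
  have hXc : X3 ≤ X := by omega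
  have hXd : X4 ≤ X := by omega
  have hXe : 8 * Q ≤ X := by omega
  have hXR : (2 : ℝ) ≤ X := by
    have : 2 ≤ X := by omega
    exact_mod_cast this
  have hX0 : (0 : ℝ) < X := by linarith
  set R : ℝ := Real.log X with hR
  have hRpos : 0 < R := Real.log_pos (by linarith)
  have hQM : (Q : ℝ) ≤ M := (hX2 X hXb).trans hM
  have hQM' : Q ≤ M := by exact_mod_cast hQM
  have hM0 : (0 : ℝ) < M := lt_of_lt_of_le hQR hQM
  have hM1 : (1 : ℝ) ≤ M := by
    have : 1 ≤ M := by omega
    exact_mod_cast this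
  -- the class
  set K0 : Finset ℕ := (Icc 1 X).filter (fun k => Q ∣ k + 1) with hK0
  have hK0card : (X : ℝ) / Q - 1 ≤ K0.card := by
    have h1 : (range (X / Q)).card ≤ K0.card := by
      apply Finset.card_le_card_of_injOn (fun j => Q * (j + 1) - 1)
      · intro j hj
        rw [mem_coe, mem_range] at hj
        rw [mem_coe, hK0, mem_filter, mem_Icc]
        have h2 : Q * (j + 1) ≤ X := by
          calc Q * (j + 1) ≤ Q * (X / Q) := Nat.mul_le_mul_left _ hj
            _ ≤ X := Nat.mul_div_le X Q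
        have h3 : 2 ≤ Q * (j + 1) := by nlinarith
        have h4 : Q * (j + 1) - 1 + 1 = Q * (j + 1) := by omega
        have h5 : 1 ≤ Q * (j + 1) - 1 ∧ Q * (j + 1) - 1 ≤ X := ⟨by omega, by omega⟩
        refine ⟨h5, ?_⟩
        change Q ∣ Q * (j + 1) - 1 + 1
        rw [h4]
        exact dvd_mul_right _ _
      · intro a _ b _ hab
        have hab' : Q * (a + 1) - 1 = Q * (b + 1) - 1 := hab
        have h3 : 2 ≤ Q * (a + 1) := by nlinarith
        have h4 : 2 ≤ Q * (b + 1) := by nlinarith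
        have h5 : Q * (a + 1) = Q * (b + 1) := by omega
        have h6 := Nat.eq_of_mul_eq_mul_left hQ0 h5
        omega
    rw [card_range] at h1
    have h2 : (X : ℝ) / Q < ((X / Q : ℕ) : ℝ) + 1 := by
      rw [div_lt_iff₀ hQR]
      have h3 : X < (X / Q + 1) * Q := by
        rw [mul_comm]
        exact Nat.lt_mul_div_succ X hQ0
      exact_mod_cast h3
    have h3 : ((X / Q : ℕ) : ℝ) ≤ K0.card := by exact_mod_cast h1
    linarith
  -- total count
  set I : Finset ℤ := Icc (-(M : ℤ)) M with hI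
  have hIcard : (I.card : ℝ) ≤ 3 * M := by
    have h1 : I.card = 2 * M + 1 := by
      rw [hI, Int.card_Icc]
      omega
    rw [h1]
    push_cast
    linarith
  set good : Finset ℤ := I.filter (fun m => ∀ p ∈ s, ¬ (p : ℤ) ∣ m ^ 3 - 1) with hgood
  have hgoodcard : (good.card : ℝ) ≤ P * (4 * M / Q) := by
    have h1 : good ⊆ I.filter (fun m : ℤ => (m : ZMod Q) ∈
        (Rset s).image (fun n : ℕ => (n : ZMod Q))) := by
      intro m hm
      rw [hgood, mem_filter] at hm
      rw [mem_filter]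
      refine ⟨hm.1, ?_⟩
      rw [mem_image]
      refine ⟨(m : ZMod Q).val, ?_, ZMod.natCast_zmod_val _⟩
      unfold Rset
      rw [mem_filter, mem_range]
      refine ⟨ZMod.val_lt _, ?_⟩
      intro p hp h
      apply hm.2 p hp
      have h2 : (((m : ZMod Q).val : ℤ)) ≡ m [ZMOD Q] := by
        rw [← ZMod.intCast_eq_intCast_iff]
        push_cast
        rw [ZMod.natCast_zmod_val]
      have h3 : (((m : ZMod Q).val : ℤ)) ≡ m [ZMOD p] :=
        h2.of_dvd (by exact_mod_cast (dvd_prod_of_mem _ hp : p ∣ Q))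
      rw [← ZMod.intCast_eq_intCast_iff] at h3
      push_cast at h3
      rw [h3] at h
      rw [← ZMod.intCast_zmod_eq_zero_iff_dvd]
      push_cast
      rw [h, sub_self]
    have h2 := (card_le_card h1).trans (card_int_classes M Q _)
    have h3 : ((Rset s).image (fun n : ℕ => (n : ZMod Q))).card ≤ P :=
      card_image_le.trans (card_Rset s hs)
    have h4 : good.card ≤ P * ((2 * M + 1) / Q + 1) := h2.trans (Nat.mul_le_mul_right _ h3)
    have h5 : (((2 * M + 1) / Q + 1 : ℕ) : ℝ) ≤ 4 * M / Q := by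
      push_cast
      have h6 : (((2 * M + 1) / Q : ℕ) : ℝ) ≤ ((2 * M + 1 : ℕ) : ℝ) / Q := Nat.cast_div_le
      push_cast at h6
      have h7 : (1 : ℝ) = Q / Q := by field_simp
      have h8 : (2 * (M : ℝ) + 1) / Q + 1 ≤ 4 * M / Q := by
        rw [h7, ← add_div, div_le_div_iff_of_pos_right hQR]
        linarith
      linarith
    calc (good.card : ℝ) ≤ ((P * ((2 * M + 1) / Q + 1) : ℕ) : ℝ) := by exact_mod_cast h4
      _ = P * (((2 * M + 1) / Q + 1 : ℕ) : ℝ) := by push_cast; ring
      _ ≤ _ := mul_le_mul_of_nonneg_left h5 (Nat.cast_nonneg _)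
  set isP : ℤ → ℕ → Prop := fun m k => ∃ p : ℕ, p.Prime ∧ m ^ 3 + (k : ℤ) = p with hisP
  have hSeq : ∑ k ∈ K0, (primeCount k M : ℝ) =
      ∑ m ∈ I, ((K0.filter (fun k => isP m k)).card : ℝ) := by
    have h2 : ∀ k, (primeCount k M : ℝ) = ∑ m ∈ I, (if isP m k then (1 : ℝ) else 0) := by
      intro k
      rw [primeCount_eq, ← sum_filter, sum_const, nsmul_eq_mul, mul_one]
    simp_rw [h2]
    rw [sum_comm]
    apply sum_congr rfl
    intro m _
    rw [← sum_filter, sum_const, nsmul_eq_mul, mul_one]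
  have hgoodm : ∀ m ∈ good, ((K0.filter (fun k => isP m k)).card : ℝ) ≤ 3 * X / (φ * R) := by
    intro m hm
    rw [hgood, mem_filter, hI, mem_Icc] at hm
    have hunit : IsUnit ((m ^ 3 - 1 : ℤ) : ZMod Q) := by
      rw [ZMod.coe_int_isUnit_iff_isCoprime, hQ]
      push_cast
      apply IsCoprime.prod_left
      intro p hp
      rw [(Nat.prime_iff_prime_int.1 (hs p hp).1).coprime_iff_not_dvd]
      exact hm.2 p hp
    refine le_trans ?_ (hX1 X hXa _ hunit)
    have hm3 : m ^ 3 ≤ X := by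
      have h1 : m ^ 3 ≤ (M : ℤ) ^ 3 :=
        (Odd.strictMono_pow (by decide : Odd 3)).monotone hm.1.2
      have h2 : (M : ℤ) ^ 3 ≤ X := by exact_mod_cast hMX
      linarith
    have h1 : (K0.filter (fun k => isP m k)).card ≤ ((Icc 1 (2 * X)).filter
        (fun n : ℕ => n.Prime ∧ (n : ZMod Q) = ((m ^ 3 - 1 : ℤ) : ZMod Q))).card := by
      apply Finset.card_le_card_of_injOn (fun k : ℕ => (m ^ 3 + (k : ℤ)).toNat)
      · intro k hk
        rw [mem_coe, mem_filter, hK0, mem_filter, mem_Icc] at hk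
        obtain ⟨⟨⟨hk1, hk2⟩, hk3⟩, p, hp, hpk⟩ := hk
        have h2 : (m ^ 3 + (k : ℤ)).toNat = p := by rw [hpk, Int.toNat_natCast]
        rw [mem_coe, mem_filter, mem_Icc]
        change (1 ≤ (m ^ 3 + (k : ℤ)).toNat ∧ (m ^ 3 + (k : ℤ)).toNat ≤ 2 * X) ∧
          ((m ^ 3 + (k : ℤ)).toNat.Prime ∧ (((m ^ 3 + (k : ℤ)).toNat : ℕ) : ZMod Q) = _)
        rw [h2]
        refine ⟨⟨hp.one_lt.le, ?_⟩, hp, ?_⟩
        · have : (p : ℤ) ≤ 2 * X := by
            rw [← hpk]
            have : (k : ℤ) ≤ X := by exact_mod_cast hk2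
            linarith
          exact_mod_cast this
        · have h3 : (((p : ℕ) : ℤ) : ZMod Q) = ((m ^ 3 + (k : ℤ) : ℤ) : ZMod Q) := by rw [hpk]
          have h4 : ((k + 1 : ℕ) : ZMod Q) = 0 := by rwa [ZMod.natCast_eq_zero_iff]
          push_cast at h3 h4 ⊢
          rw [h3, eq_neg_of_add_eq_zero_left h4]
          ring
      · intro a ha b hb hab
        rw [mem_coe, mem_filter] at ha hb
        obtain ⟨_, p, hp, hpa⟩ := ha
        obtain ⟨_, q, hq, hqb⟩ := hb
        have hab' : (m ^ 3 + (a : ℤ)).toNat = (m ^ 3 + (b : ℤ)).toNat := hab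
        rw [hpa, hqb, Int.toNat_natCast, Int.toNat_natCast] at hab'
        rw [← hab'] at hqb
        have : (a : ℤ) = b := by linarith
        exact_mod_cast this
    exact_mod_cast h1
  have hbadm : ∀ m ∈ I, m ∉ good → ((K0.filter (fun k => isP m k)).card : ℝ) ≤ 1 := by
    intro m hmI hm
    rw [hgood, mem_filter] at hm
    push Not at hm
    obtain ⟨p, hp, hpm⟩ := hm hmI
    have h1 : (K0.filter (fun k => isP m k)).card ≤ 1 := by
      rw [card_le_one]
      have key : ∀ a ∈ K0.filter (fun k => isP m k), m ^ 3 + (a : ℤ) = p := by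
        intro a ha
        rw [mem_filter, hK0, mem_filter] at ha
        obtain ⟨⟨_, ha2⟩, q, hq, hqa⟩ := ha
        have h2 : (p : ℤ) ∣ (a : ℤ) + 1 := by
          have h3 : p ∣ a + 1 := (dvd_prod_of_mem _ hp : p ∣ Q).trans ha2
          exact_mod_cast h3
        have h4 : (p : ℤ) ∣ (q : ℤ) := by
          rw [← hqa]
          have h5 := dvd_add hpm h2
          have h6 : m ^ 3 - 1 + ((a : ℤ) + 1) = m ^ 3 + (a : ℤ) := by ring
          rwa [h6] at h5
        have h5 : p ∣ q := by exact_mod_cast h4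
        have h6 := (Nat.prime_dvd_prime_iff_eq (hs p hp).1 hq).1 h5
        rw [hqa, h6]
      intro a ha b hb
      have h2 := key a ha
      have h3 := key b hb
      have : (a : ℤ) = b := by linarith
      exact_mod_cast this
    exact_mod_cast h1
  have hSup : ∑ k ∈ K0, (primeCount k M : ℝ) ≤
      P * (4 * M / Q) * (3 * X / (φ * R)) + 3 * M := by
    rw [hSeq]
    have h1 : ∑ m ∈ I, ((K0.filter (fun k => isP m k)).card : ℝ) ≤
        ∑ m ∈ I, ((if m ∈ good then 3 * (X : ℝ) / (φ * R) else 0) + 1) := by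
      apply sum_le_sum
      intro m hm
      by_cases h : m ∈ good
      · rw [if_pos h]
        have := hgoodm m h
        linarith
      · rw [if_neg h, zero_add]
        exact hbadm m hm h
    refine h1.trans ?_
    rw [sum_add_distrib, ← sum_filter, sum_const, sum_const, nsmul_eq_mul, nsmul_eq_mul, mul_one]
    have h2 : I.filter (fun m => m ∈ good) = good := by
      ext m
      rw [mem_filter]
      constructor
      · exact fun h => h.2
      · intro h
        refine ⟨?_, h⟩
        rw [hgood, mem_filter] at h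
        exact h.1
    rw [h2]
    have h3 : 0 ≤ 3 * (X : ℝ) / (φ * R) := by positivity
    have h4 := mul_le_mul_of_nonneg_right hgoodcard h3
    linarith
  -- Markov
  set Kb : Finset ℕ := K0.filter (fun k => ¬ (primeCount k M : ℝ) ≤ M / (A * R)) with hKb
  have hKbcard : (Kb.card : ℝ) ≤ 1 / 4 * (X / Q) + X / (8 * Q) := by
    have h1 : (Kb.card : ℝ) * (M / (A * R)) ≤ ∑ k ∈ K0, (primeCount k M : ℝ) := by
      calc (Kb.card : ℝ) * (M / (A * R)) = ∑ k ∈ Kb, (M : ℝ) / (A * R) := by
            rw [sum_const, nsmul_eq_mul]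
        _ ≤ ∑ k ∈ Kb, (primeCount k M : ℝ) := by
            apply sum_le_sum
            intro k hk
            rw [hKb, mem_filter] at hk
            exact (not_le.1 hk.2).le
        _ ≤ _ := by
            apply sum_le_sum_of_subset_of_nonneg (filter_subset _ _)
            intro k _ _
            positivity
    have h2 := h1.trans hSup
    have h3 : 0 < (M : ℝ) / (A * R) := by positivity
    rw [← le_div_iff₀ h3] at h2
    refine h2.trans ?_
    have e1 : ((P : ℝ) * (4 * M / Q) * (3 * X / (φ * R)) + 3 * M) / (M / (A * R)) =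
        12 * A * ((P : ℝ) / φ) * (X / Q) + 3 * A * R := by
      field_simp
      ring
    rw [e1]
    have h4 : 0 ≤ (X : ℝ) / Q := by positivity
    have h5 := mul_le_mul_of_nonneg_right hPphi h4
    have h6 := hX3 X hXc
    linarith
  set Kc : Finset ℕ := (Icc 1 X).filter IsCube with hKc
  have hKccard : (Kc.card : ℝ) ≤ X / (8 * Q) := by
    have h1 : (Kc.card : ℝ) ≤ ((Nat.sqrt X : ℕ) : ℝ) := by exact_mod_cast card_cubes X
    exact h1.trans (hX4 X hXd)
  have hfin : {k : ℕ | 1 ≤ k ∧ k ≤ X ∧ ¬ IsCube k ∧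
        (primeCount k M : ℝ) ≤ M / (A * Real.log X)}.Finite :=
    (Set.finite_Icc 1 X).subset fun k hk => ⟨hk.1, hk.2.1⟩
  have hsubK : (((K0 \ Kb) \ Kc : Finset ℕ) : Set ℕ) ⊆ {k : ℕ | 1 ≤ k ∧ k ≤ X ∧ ¬ IsCube k ∧
        (primeCount k M : ℝ) ≤ M / (A * Real.log X)} := by
    intro k hk
    rw [mem_coe, Finset.mem_sdiff, Finset.mem_sdiff] at hk
    obtain ⟨⟨hk1, hk2⟩, hk3⟩ := hk
    have hk4 : k ∈ Icc 1 X := (mem_filter.1 hk1).1
    refine ⟨(mem_Icc.1 hk4).1, (mem_Icc.1 hk4).2, ?_, ?_⟩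
    · intro h
      exact hk3 (by rw [hKc, mem_filter]; exact ⟨hk4, h⟩)
    · by_contra h
      exact hk2 (by rw [hKb, mem_filter]; exact ⟨hk1, h⟩)
  have h2 := Set.ncard_le_ncard hsubK hfin
  rw [Set.ncard_coe_finset] at h2
  have h3 : K0.card ≤ ((K0 \ Kb) \ Kc).card + Kb.card + Kc.card := by
    have h4 := le_card_sdiff Kc (K0 \ Kb)
    have h5 := le_card_sdiff Kb K0
    omega
  have h4 : (K0.card : ℝ) ≤ (((K0 \ Kb) \ Kc).card : ℝ) + Kb.card + Kc.card := by
    exact_mod_cast h3
  have h5 : ((((K0 \ Kb) \ Kc).card : ℕ) : ℝ) ≤ ((Set.ncard {k : ℕ | 1 ≤ k ∧ k ≤ X ∧ ¬ IsCube k ∧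
        (primeCount k M : ℝ) ≤ M / (A * Real.log X)} : ℕ) : ℝ) := by exact_mod_cast h2
  have h6 : (1 : ℝ) ≤ X / (8 * Q) := by
    rw [le_div_iff₀ (by positivity), one_mul]
    exact_mod_cast hXe
  have h7 : (X : ℝ) / Q = 8 * (X / (8 * Q)) := by field_simp
  have h8 : 1 / (4 * (Q : ℝ)) * X = 2 * (X / (8 * Q)) := by field_simp; norm_num
  rw [h8]
  rw [h7] at hK0card hKbcard
  linarith

end Pool.Agent.H33.Cubic
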