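import Pool.Agent.H33.Cubic.Second

/-!
Positive proportion of `k` with many primes `m ^ 3 + k`.
-/

namespace Pool.Agent.H33.Cubic

open Finset Filter Topology Pool.Agent.H5.Short Pool.Agent.H5.PNT

theorem log_ratio : Tendsto (fun x : ℝ => Real.log x / Real.log (x / 4)) atTop (𝓝 1) := by
  have h1 : Tendsto (fun x : ℝ => 1 - Real.log 4 / Real.log x) atTop (𝓝 (1 - 0)) :=
    tendsto_const_nhds.sub (Real.tendsto_log_atTop.const_div_atTop (Real.log 4))
  rw [sub_zero] at h1
  have h2 : Tendsto (fun x : ℝ => (1 - Real.log 4 / Real.log x)⁻¹) atTop (𝓝 1) := by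
    have := h1.inv₀ one_ne_zero
    rwa [inv_one] at this
  refine h2.congr' ?_
  filter_upwards [eventually_gt_atTop (4 : ℝ)] with x hx
  have hx1 : 0 < Real.log x := Real.log_pos (by linarith)
  rw [Real.log_div (by linarith) (by norm_num)]
  have h3 : Real.log 4 < Real.log x := Real.log_lt_log (by norm_num) hx
  have h4 : Real.log x - Real.log 4 ≠ 0 := by linarith
  have h5 : 1 - Real.log 4 / Real.log x = (Real.log x - Real.log 4) / Real.log x := by
    field_simp
  rw [h5, inv_div]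

/-- primes of a class in `(X/4, X]` -/
def PP (Q : ℕ) (a : ZMod Q) (X : ℕ) : Finset ℕ :=
  (Ioc (X / 4) X).filter (fun n => n.Prime ∧ (n : ZMod Q) = a)

theorem lower_primes (Q : ℕ) [NeZero Q] : ∀ᶠ X : ℕ in atTop, ∀ a : ZMod Q, IsUnit a →
    (X : ℝ) / (2 * Q.totient * Real.log X) ≤ ((PP Q a X).card : ℝ) := by
  rw [eventually_all]
  intro a
  by_cases ha : IsUnit a
  swap
  · exact Eventually.of_forall fun X h => absurd h ha
  have hphi : (0 : ℝ) < Q.totient := by
    exact_mod_cast Nat.totient_pos.2 (Nat.pos_of_ne_zero (NeZero.ne Q))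
  have h1 := pi_ap Q a ha
  have hx4 : Tendsto (fun x : ℝ => x / 4) atTop atTop := tendsto_id.atTop_div_const (by norm_num)
  have h2 := h1.comp hx4
  have h3 : Tendsto (fun x : ℝ => ((primesIn Q a x).card : ℝ) * Real.log x / x -
      (1 / 4) * ((((primesIn Q a (x / 4)).card : ℝ) * Real.log (x / 4) / (x / 4)) *
        (Real.log x / Real.log (x / 4)))) atTop
      (𝓝 ((Q.totient : ℝ)⁻¹ - (1 / 4) * ((Q.totient : ℝ)⁻¹ * 1))) :=
    h1.sub ((h2.mul log_ratio).const_mul (1 / 4))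
  have hL : (Q.totient : ℝ)⁻¹ / 2 < (Q.totient : ℝ)⁻¹ - (1 / 4) * ((Q.totient : ℝ)⁻¹ * 1) := by
    have : 0 < (Q.totient : ℝ)⁻¹ := by positivity
    linarith
  have h4 := tendsto_natCast_atTop_atTop.eventually (h3.eventually_const_lt hL)
  filter_upwards [h4, eventually_gt_atTop 4] with X hX hX4
  intro _
  have hXR : (4 : ℝ) < X := by exact_mod_cast hX4
  have hlog : 0 < Real.log X := Real.log_pos (by linarith)
  have hlog4 : 0 < Real.log ((X : ℝ) / 4) := Real.log_pos (by linarith)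
  have hsub : primesIn Q a (X : ℝ) ⊆ primesIn Q a ((X : ℝ) / 4) ∪ PP Q a X := by
    intro n hn
    unfold primesIn at hn ⊢
    unfold PP
    rw [mem_filter, mem_Icc, Nat.floor_natCast] at hn
    rw [mem_union, mem_filter, mem_filter, mem_Icc, mem_Ioc]
    rcases Nat.lt_or_ge (X / 4) n with h | h
    · right
      exact ⟨⟨h, hn.1.2⟩, hn.2⟩
    · left
      refine ⟨⟨hn.1.1, ?_⟩, hn.2⟩
      apply Nat.le_floor
      calc (n : ℝ) ≤ ((X / 4 : ℕ) : ℝ) := by exact_mod_cast h
        _ ≤ (X : ℝ) / 4 := by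
          have := @Nat.cast_div_le ℝ _ _ _ X 4
          simpa using this
  have hcard : ((primesIn Q a (X : ℝ)).card : ℝ) ≤
      ((primesIn Q a ((X : ℝ) / 4)).card : ℝ) + ((PP Q a X).card : ℝ) := by
    exact_mod_cast (card_le_card hsub).trans (card_union_le _ _)
  have e1 : ((primesIn Q a (X : ℝ)).card : ℝ) * Real.log X / X -
      (1 / 4) * ((((primesIn Q a ((X : ℝ) / 4)).card : ℝ) * Real.log ((X : ℝ) / 4) /
        ((X : ℝ) / 4)) * (Real.log X / Real.log ((X : ℝ) / 4))) =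
      (((primesIn Q a (X : ℝ)).card : ℝ) - ((primesIn Q a ((X : ℝ) / 4)).card : ℝ)) *
        (Real.log X / X) := by
    field_simp
  rw [e1] at hX
  have h5 : (((primesIn Q a (X : ℝ)).card : ℝ) - ((primesIn Q a ((X : ℝ) / 4)).card : ℝ)) *
        (Real.log X / X) ≤ ((PP Q a X).card : ℝ) * (Real.log X / X) := by
    apply mul_le_mul_of_nonneg_right _ (by positivity)
    linarith
  have h6 : (Q.totient : ℝ)⁻¹ / 2 < ((PP Q a X).card : ℝ) * (Real.log X / X) :=
    lt_of_lt_of_le hX h5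
  rw [div_le_iff₀ (by positivity)]
  have h7 : ((PP Q a X).card : ℝ) * (Real.log X / X) * X =
      ((PP Q a X).card : ℝ) * Real.log X := by
    field_simp
  have h8 : (Q.totient : ℝ)⁻¹ / 2 * X ≤ ((PP Q a X).card : ℝ) * Real.log X := by
    rw [← h7]
    exact mul_le_mul_of_nonneg_right h6.le (by positivity)
  have h9 : (X : ℝ) = (Q.totient : ℝ)⁻¹ / 2 * X * (2 * Q.totient) := by
    field_simp
  calc (X : ℝ) = (Q.totient : ℝ)⁻¹ / 2 * X * (2 * Q.totient) := h9
    _ ≤ ((PP Q a X).card : ℝ) * Real.log X * (2 * Q.totient) :=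
        mul_le_mul_of_nonneg_right h8 (by positivity)
    _ = _ := by ring

theorem upper_primes (Q : ℕ) [NeZero Q] : ∀ᶠ X : ℕ in atTop, ∀ a : ZMod Q, IsUnit a →
    (((Icc 1 (2 * X)).filter (fun n : ℕ => n.Prime ∧ (n : ZMod Q) = a)).card : ℝ) ≤
      3 * X / (Q.totient * Real.log X) := by
  rw [eventually_all]
  intro a
  by_cases ha : IsUnit a
  swap
  · exact Eventually.of_forall fun X h => absurd h ha
  have hphi : (0 : ℝ) < Q.totient := by
    exact_mod_cast Nat.totient_pos.2 (Nat.pos_of_ne_zero (NeZero.ne Q))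
  have h1 := pi_ap Q a ha
  have hL : (Q.totient : ℝ)⁻¹ < (Q.totient : ℝ)⁻¹ * (3 / 2) := by
    have : 0 < (Q.totient : ℝ)⁻¹ := by positivity
    linarith
  have hx2 : Tendsto (fun X : ℕ => ((2 * X : ℕ) : ℝ)) atTop atTop := by
    apply tendsto_natCast_atTop_atTop.comp
    exact tendsto_id.const_mul_atTop' (by norm_num)
  have h4 := hx2.eventually (h1.eventually_lt_const hL)
  filter_upwards [h4, eventually_gt_atTop 4] with X hX hX4
  intro _
  have hXR : (4 : ℝ) < X := by exact_mod_cast hX4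
  have hlog : 0 < Real.log X := Real.log_pos (by linarith)
  have hlog2 : Real.log X ≤ Real.log ((2 * X : ℕ) : ℝ) := by
    apply Real.log_le_log (by linarith)
    push_cast
    linarith
  have hlog20 : 0 < Real.log ((2 * X : ℕ) : ℝ) := lt_of_lt_of_le hlog hlog2
  have e0 : primesIn Q a ((2 * X : ℕ) : ℝ) =
      (Icc 1 (2 * X)).filter (fun n : ℕ => n.Prime ∧ (n : ZMod Q) = a) := by
    unfold primesIn
    rw [Nat.floor_natCast]
  rw [e0] at hX
  set c : ℝ := (((Icc 1 (2 * X)).filter (fun n : ℕ => n.Prime ∧ (n : ZMod Q) = a)).card : ℝ) with hc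
  have hc0 : 0 ≤ c := Nat.cast_nonneg _
  have h5 : c * Real.log X / ((2 * X : ℕ) : ℝ) ≤ (Q.totient : ℝ)⁻¹ * (3 / 2) := by
    refine le_trans ?_ hX.le
    gcongr
  rw [div_le_iff₀ (by push_cast; positivity)] at h5
  rw [le_div_iff₀ (by positivity)]
  calc c * (Q.totient * Real.log X) = (c * Real.log X) * Q.totient := by ring
    _ ≤ ((Q.totient : ℝ)⁻¹ * (3 / 2) * ((2 * X : ℕ) : ℝ)) * Q.totient :=
        mul_le_mul_of_nonneg_right h5 hphi.le
    _ = 3 * X := by push_cast; field_simp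

/-- a class mod `Q = ∏ p` in which `m ^ 3 + k` is always prime to `Q` and `k` is never a cube -/
theorem exists_class (s : Finset ℕ) (hs : ∀ p ∈ s, p.Prime ∧ p % 3 = 1) :
    ∃ k₀ : ℕ, ∀ k : ℕ, (k : ZMod (∏ p ∈ s, p)) = (k₀ : ZMod (∏ p ∈ s, p)) →
      (∀ m : ℕ, (m ^ 3 + k).Coprime (∏ p ∈ s, p)) ∧ (s.Nonempty → ¬ IsCube k) := by
  classical
  have hg : ∀ p : ℕ, ∃ g : ℕ, p ∈ s → ∀ x : ZMod p, x ^ 3 ≠ -(g : ZMod p) := by
    intro p
    by_cases hp : p ∈ s
    · have : Fact p.Prime := ⟨(hs p hp).1⟩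
      obtain ⟨g, hg⟩ := exists_not_cube p (hs p hp).2
      refine ⟨(-g).val, fun _ x => ?_⟩
      rw [ZMod.natCast_zmod_val, neg_neg]
      exact hg x
    · exact ⟨0, fun h => absurd h hp⟩
  choose g hg using hg
  have hpp : Set.Pairwise (s : Set ℕ) (Function.onFun Nat.Coprime (fun p : ℕ => p)) := by
    intro p hp q hq hpq
    exact (Nat.coprime_primes (hs p hp).1 (hs q hq).1).2 hpq
  obtain ⟨k₀, hk₀⟩ := Nat.chineseRemainderOfFinset g (fun p : ℕ => p) s
    (fun p hp => (hs p hp).1.ne_zero) hpp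
  refine ⟨k₀, fun k hk => ?_⟩
  have hk' : ∀ p ∈ s, (k : ZMod p) = (g p : ZMod p) := by
    intro p hp
    rw [ZMod.natCast_eq_natCast_iff] at hk ⊢
    exact (hk.of_dvd (dvd_prod_of_mem _ hp)).trans (hk₀ p hp)
  constructor
  · intro m
    apply Nat.Coprime.prod_right
    intro p hp
    rw [Nat.coprime_comm, (hs p hp).1.coprime_iff_not_dvd]
    intro hdvd
    have : Fact p.Prime := ⟨(hs p hp).1⟩
    rw [← ZMod.natCast_eq_zero_iff] at hdvd
    push_cast at hdvd
    rw [hk' p hp] at hdvd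
    exact hg p hp (m : ZMod p) (eq_neg_of_add_eq_zero_left hdvd)
  · rintro ⟨p, hp⟩ ⟨a, ha⟩
    have : Fact p.Prime := ⟨(hs p hp).1⟩
    apply hg p hp (-(a : ZMod p))
    have h1 : ((a ^ 3 : ℤ) : ZMod p) = ((k : ℤ) : ZMod p) := by rw [ha]
    push_cast at h1
    rw [hk' p hp] at h1
    rw [← h1]
    ring

/-- Positive proportion of `k` with many primes. -/
theorem many (ε A : ℝ) (hε : 0 < ε) (hA : 0 < A) :
    ∃ c : ℝ, 0 < c ∧ ∃ X₀ : ℕ, ∀ X M : ℕ, X₀ ≤ X → ε * Real.log X ≤ M → M ^ 3 ≤ X →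
      c * X ≤ ((Set.ncard {k : ℕ | 1 ≤ k ∧ k ≤ X ∧ ¬ IsCube k ∧ 1 ≤ primeCount k M ∧
        A * (M / Real.log X) ≤ primeCount k M} : ℕ) : ℝ) := by
  classical
  obtain ⟨s, hs, hsG⟩ := exists_primes (24 * A + 24 / ε)
  have hG : 0 < 24 * A + 24 / ε := by positivity
  have hsne : s.Nonempty := by
    rw [nonempty_iff_ne_empty]
    rintro rfl
    rw [sum_empty] at hsG
    linarith
  have hprod := hsG.trans (prod_ge s hs)
  set Q : ℕ := ∏ p ∈ s, p with hQ
  have hQ0 : 0 < Q := prod_pos fun p hp => (hs p hp).1.pos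
  have : NeZero Q := ⟨hQ0.ne'⟩
  have hphi0 : (0 : ℝ) < Q.totient := by exact_mod_cast Nat.totient_pos.2 hQ0
  have hQR : (0 : ℝ) < Q := by exact_mod_cast hQ0
  -- Q / φ(Q)
  have hratio : (Q : ℝ) / Q.totient = ∏ p ∈ s, ((p : ℝ) / (p - 1)) := by
    have h1 : Q.totient = ∏ p ∈ s, (p - 1) := by
      have h2 : ∀ t : Finset ℕ, t ⊆ s → (∏ p ∈ t, p).totient = ∏ p ∈ t, (p - 1) := by
        intro t
        induction t using Finset.induction_on with
        | empty => intro _; simp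
        | insert p t hpt ih =>
          intro hsub
          rw [prod_insert hpt, prod_insert hpt, Nat.totient_mul,
            ih (fun q hq => hsub (mem_insert_of_mem hq)),
            Nat.totient_prime (hs p (hsub (mem_insert_self _ _))).1]
          apply Nat.Coprime.prod_right
          intro q hq
          rw [Nat.coprime_primes (hs p (hsub (mem_insert_self _ _))).1
            (hs q (hsub (mem_insert_of_mem hq))).1]
          rintro rfl
          exact hpt hq
      exact h2 s (Subset.refl _)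
    rw [h1, hQ, prod_div_distrib]
    push_cast
    congr 1
    apply prod_congr rfl
    intro p hp
    rw [Nat.cast_sub (hs p hp).1.one_lt.le, Nat.cast_one]
  rw [← hratio] at hprod
  have hr1 : 24 * A ≤ (Q : ℝ) / Q.totient := by
    have : 0 < 24 / ε := by positivity
    linarith
  have hr2 : 24 / ε ≤ (Q : ℝ) / Q.totient := by
    have : 0 < 24 * A := by positivity
    linarith
  obtain ⟨k₀, hk₀⟩ := exists_class s hs
  obtain ⟨C, hC, hsec⟩ := second_cubes
  set φ : ℝ := (Q.totient : ℝ) with hφ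
  refine ⟨1 / (144 * φ ^ 2 * (C * (1 + 1 / ε))), by positivity, ?_⟩
  obtain ⟨X1, hX1⟩ := eventually_atTop.1 (lower_primes Q)
  have hlogev : ∀ᶠ X : ℕ in atTop, 2 ≤ ε * Real.log X := by
    have h1 : Tendsto (fun X : ℕ => ε * Real.log X) atTop atTop :=
      (Real.tendsto_log_atTop.comp tendsto_natCast_atTop_atTop).const_mul_atTop hε
    exact h1.eventually_ge_atTop 2
  obtain ⟨X2, hX2⟩ := eventually_atTop.1 hlogev
  refine ⟨max (max X1 X2) (max 2 Q), ?_⟩
  intro X M hX hM hMX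
  have hXa : X1 ≤ X := le_trans (le_max_left _ _ |>.trans (le_max_left _ _)) hX
  have hXb : X2 ≤ X := le_trans (le_max_right _ _ |>.trans (le_max_left _ _)) hX
  have hXc : 2 ≤ X := le_trans (le_max_left _ _ |>.trans (le_max_right _ _)) hX
  have hXd : Q ≤ X := le_trans (le_max_right _ _ |>.trans (le_max_right _ _)) hX
  have hXR : (2 : ℝ) ≤ X := by exact_mod_cast hXc
  have hX0 : (0 : ℝ) < X := by linarith
  set R : ℝ := Real.log X with hR
  have hRpos : 0 < R := Real.log_pos (by linarith)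
  have hM2 : (2 : ℝ) ≤ M := (hX2 X hXb).trans hM
  have hM2' : 2 ≤ M := by exact_mod_cast hM2
  set M' : ℕ := M / 2 with hM'
  have hM'1 : 1 ≤ M' := by omega
  have hM'3 : (M : ℝ) / 3 ≤ M' := by
    have h1 : M ≤ 3 * M' := by omega
    have h2 : (M : ℝ) ≤ 3 * M' := by exact_mod_cast h1
    linarith
  have hM'le : M' ≤ M := by omega
  have hM'cube : 8 * M' ^ 3 ≤ X := by
    have h1 : 2 * M' ≤ M := by omega
    have h2 : (2 * M') ^ 3 ≤ M ^ 3 := Nat.pow_le_pow_left h1 3
    have h3 : (2 * M') ^ 3 = 8 * M' ^ 3 := by ring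
    omega
  -- the class
  set K0 : Finset ℕ := (Icc 1 X).filter (fun k => (k : ZMod Q) = (k₀ : ZMod Q)) with hK0
  have hK0card : (K0.card : ℝ) ≤ 2 * X / Q := by
    have h1 := card_class X Q (k₀ : ZMod Q)
    have h2 : (K0.card : ℝ) ≤ ((X / Q : ℕ) : ℝ) + 1 := by exact_mod_cast h1
    have h3 : ((X / Q : ℕ) : ℝ) ≤ X / Q := Nat.cast_div_le
    have h4 : (1 : ℝ) ≤ X / Q := by
      rw [le_div_iff₀ hQR, one_mul]
      exact_mod_cast hXd
    have h5 : 2 * (X : ℝ) / Q = X / Q + X / Q := by ring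
    rw [h5]
    linarith
  -- the first moment
  set S : ℝ := ∑ k ∈ K0, (nk k M' : ℝ) with hS
  have hSlow : M' * (X / (2 * φ * R)) ≤ S := by
    have h1 : S = ∑ m ∈ Icc 1 M', ((K0.filter (fun k => (m ^ 3 + k).Prime)).card : ℝ) := by
      have h2 : ∀ k, (nk k M' : ℝ) = ∑ m ∈ Icc 1 M', (if (m ^ 3 + k).Prime then (1 : ℝ) else 0) := by
        intro k
        unfold nk
        rw [← sum_filter, sum_const, nsmul_eq_mul, mul_one]
      rw [hS]
      simp_rw [h2]
      rw [sum_comm]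
      apply sum_congr rfl
      intro m _
      rw [← sum_filter, sum_const, nsmul_eq_mul, mul_one]
    rw [h1]
    have h3 : ∀ m ∈ Icc 1 M', (X : ℝ) / (2 * φ * R) ≤
        ((K0.filter (fun k => (m ^ 3 + k).Prime)).card : ℝ) := by
      intro m hm
      rw [mem_Icc] at hm
      have hm3 : 8 * m ^ 3 ≤ X := by
        have := Nat.pow_le_pow_left hm.2 3
        omega
      have hunit : IsUnit (((m ^ 3 + k₀ : ℕ)) : ZMod Q) := by
        rw [ZMod.isUnit_iff_coprime]
        exact (hk₀ k₀ rfl).1 m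
      refine (hX1 X hXa _ hunit).trans ?_
      have h4 : (PP Q ((m ^ 3 + k₀ : ℕ) : ZMod Q) X).card ≤
          (K0.filter (fun k => (m ^ 3 + k).Prime)).card := by
        apply Finset.card_le_card_of_injOn (fun n => n - m ^ 3)
        · intro n hn
          unfold PP at hn
          rw [mem_coe, mem_filter, mem_Ioc] at hn
          have hnm : m ^ 3 < n := by
            have : m ^ 3 ≤ X / 4 := by omega
            omega
          have h5 : m ^ 3 + (n - m ^ 3) = n := by omega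
          rw [mem_coe, mem_filter, hK0, mem_filter, mem_Icc]
          have h6 : 1 ≤ n - m ^ 3 ∧ n - m ^ 3 ≤ X := ⟨by omega, by omega⟩
          refine ⟨⟨h6, ?_⟩, ?_⟩
          · have h7 : ((m ^ 3 + (n - m ^ 3) : ℕ) : ZMod Q) = ((m ^ 3 + k₀ : ℕ) : ZMod Q) := by
              rw [h5]
              exact hn.2.2
            rw [Nat.cast_add, Nat.cast_add] at h7
            exact add_left_cancel h7
          · change (m ^ 3 + (n - m ^ 3)).Prime
            rw [h5]
            exact hn.2.1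
        · intro a ha b hb hab
          unfold PP at ha hb
          rw [mem_coe, mem_filter, mem_Ioc] at ha hb
          have hab' : a - m ^ 3 = b - m ^ 3 := hab
          have : m ^ 3 ≤ X / 4 := by omega
          omega
      exact_mod_cast h4
    have h5 := sum_le_sum h3
    rw [sum_const, nsmul_eq_mul, Nat.card_Icc] at h5
    have e1 : ((M' + 1 - 1 : ℕ) : ℝ) = M' := by simp
    rwa [e1] at h5
  -- threshold
  set t : ℝ := max 1 (A * (M / R)) with ht
  have ht0 : 0 < t := lt_of_lt_of_le one_pos (le_max_left _ _)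
  have hM0 : (0 : ℝ) < M := by linarith
  have htle : t ≤ M * (Q / φ) / (24 * R) := by
    apply max_le
    · rw [le_div_iff₀ (by positivity)]
      have h1 : ε * R * (24 / ε) ≤ M * (Q / φ) := mul_le_mul hM hr2 (by positivity) hM0.le
      have h2 : ε * R * (24 / ε) = 24 * R := by field_simp
      linarith
    · rw [le_div_iff₀ (by positivity)]
      have h1 : (M : ℝ) * (24 * A) ≤ M * (Q / φ) := mul_le_mul_of_nonneg_left hr1 hM0.le
      have h2 : A * (M / R) * (24 * R) = M * (24 * A) := by field_simp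
      linarith
  have htK : t * K0.card ≤ S / 2 := by
    calc t * K0.card ≤ (M * (Q / φ) / (24 * R)) * (2 * X / Q) := by gcongr
      _ = (M / 3) * (X / (2 * φ * R)) / 2 := by field_simp; ring
      _ ≤ M' * (X / (2 * φ * R)) / 2 := by gcongr
      _ ≤ S / 2 := by linarith
  set Kb : Finset ℕ := K0.filter (fun k => t ≤ (nk k M' : ℝ)) with hKb
  have hSb : S / 2 ≤ ∑ k ∈ Kb, (nk k M' : ℝ) := by
    have h1 : S = ∑ k ∈ Kb, (nk k M' : ℝ) +
        ∑ k ∈ K0.filter (fun k => ¬ t ≤ (nk k M' : ℝ)), (nk k M' : ℝ) := by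
      rw [hS, hKb, sum_filter_add_sum_filter_not]
    have h2 : ∑ k ∈ K0.filter (fun k => ¬ t ≤ (nk k M' : ℝ)), (nk k M' : ℝ) ≤ t * K0.card := by
      calc ∑ k ∈ K0.filter (fun k => ¬ t ≤ (nk k M' : ℝ)), (nk k M' : ℝ)
          ≤ ∑ k ∈ K0.filter (fun k => ¬ t ≤ (nk k M' : ℝ)), t := by
            apply sum_le_sum
            intro k hk
            rw [mem_filter] at hk
            exact (not_le.1 hk.2).le
        _ = (K0.filter (fun k => ¬ t ≤ (nk k M' : ℝ))).card * t := by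
            rw [sum_const, nsmul_eq_mul]
        _ ≤ K0.card * t := by
            apply mul_le_mul_of_nonneg_right _ ht0.le
            exact_mod_cast card_le_card (filter_subset _ _)
        _ = t * K0.card := mul_comm _ _
    linarith
  have hcs : (∑ k ∈ Kb, (nk k M' : ℝ)) ^ 2 ≤ Kb.card * ∑ k ∈ Kb, (nk k M' : ℝ) ^ 2 :=
    sq_sum_le_card_mul_sum_sq
  have hM'X : M' ^ 3 ≤ X := by omega
  have hT : ∑ k ∈ Kb, (nk k M' : ℝ) ^ 2 ≤ C * (1 + 1 / ε) * ((M : ℝ) ^ 2 * X / R ^ 2) := by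
    calc ∑ k ∈ Kb, (nk k M' : ℝ) ^ 2 ≤ ∑ k ∈ Icc 1 X, (nk k M' : ℝ) ^ 2 := by
          apply sum_le_sum_of_subset_of_nonneg
          · exact (filter_subset _ _).trans (filter_subset _ _)
          · intro k _ _
            positivity
      _ ≤ C * (M' * X / R + (M' : ℝ) ^ 2 * X / R ^ 2) := hsec X M' hXc hM'1 hM'X
      _ ≤ C * (M * X / R + (M : ℝ) ^ 2 * X / R ^ 2) := by
          have h1 : (M' : ℝ) ≤ M := by exact_mod_cast hM'le
          gcongr
      _ ≤ C * ((1 / ε) * ((M : ℝ) ^ 2 * X / R ^ 2) + (M : ℝ) ^ 2 * X / R ^ 2) := by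
          have h1 : (M : ℝ) * X / R ≤ (1 / ε) * ((M : ℝ) ^ 2 * X / R ^ 2) := by
            have h2 : (1 / ε) * ((M : ℝ) ^ 2 * X / R ^ 2) = (M * X / R) * (M / (ε * R)) := by
              field_simp
            rw [h2]
            have h3 : 1 ≤ (M : ℝ) / (ε * R) := by
              rw [le_div_iff₀ (by positivity), one_mul]
              exact hM
            have h4 : 0 ≤ (M : ℝ) * X / R := by positivity
            nlinarith
          gcongr
      _ = _ := by ring
  have hKcard : 1 / (144 * φ ^ 2 * (C * (1 + 1 / ε))) * X ≤ (Kb.card : ℝ) := by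
    have hS0 : (M : ℝ) * X / (12 * φ * R) ≤ S / 2 := by
      calc (M : ℝ) * X / (12 * φ * R) = (M / 3) * (X / (2 * φ * R)) / 2 := by field_simp; ring
        _ ≤ M' * (X / (2 * φ * R)) / 2 := by gcongr
        _ ≤ S / 2 := by linarith
    have h1 : ((M : ℝ) * X / (12 * φ * R)) ^ 2 ≤
        Kb.card * (C * (1 + 1 / ε) * ((M : ℝ) ^ 2 * X / R ^ 2)) := by
      calc ((M : ℝ) * X / (12 * φ * R)) ^ 2 ≤ (∑ k ∈ Kb, (nk k M' : ℝ)) ^ 2 := by
            apply pow_le_pow_left₀ (by positivity)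
            exact hS0.trans hSb
        _ ≤ Kb.card * ∑ k ∈ Kb, (nk k M' : ℝ) ^ 2 := hcs
        _ ≤ _ := by gcongr
    have hW : 0 < C * (1 + 1 / ε) * ((M : ℝ) ^ 2 * X / R ^ 2) := by positivity
    rw [← div_le_iff₀ hW] at h1
    refine le_trans (le_of_eq ?_) h1
    field_simp
    ring
  refine hKcard.trans ?_
  have hfin : {k : ℕ | 1 ≤ k ∧ k ≤ X ∧ ¬ IsCube k ∧ 1 ≤ primeCount k M ∧
        A * (M / Real.log X) ≤ primeCount k M}.Finite :=
    (Set.finite_Icc 1 X).subset fun k hk => ⟨hk.1, hk.2.1⟩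
  have hsubK : (Kb : Set ℕ) ⊆ {k : ℕ | 1 ≤ k ∧ k ≤ X ∧ ¬ IsCube k ∧ 1 ≤ primeCount k M ∧
        A * (M / Real.log X) ≤ primeCount k M} := by
    intro k hk
    rw [mem_coe, hKb, mem_filter, hK0, mem_filter, mem_Icc] at hk
    obtain ⟨⟨hk1, hk2⟩, hk3⟩ := hk
    have h1 : (nk k M' : ℝ) ≤ primeCount k M := by exact_mod_cast nk_le_primeCount hM'le
    refine ⟨hk1.1, hk1.2, (hk₀ k hk2).2 hsne, ?_, ?_⟩
    · have h2 : (1 : ℝ) ≤ primeCount k M := (le_max_left _ _).trans (hk3.trans h1)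
      exact_mod_cast h2
    · exact (le_max_right _ _).trans (hk3.trans h1)
  have h2 := Set.ncard_le_ncard hsubK hfin
  rw [Set.ncard_coe_finset] at h2
  exact_mod_cast h2

end Pool.Agent.H33.Cubic
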