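import Pool.Agent.H33.Cubic.Defs

/-!
Second moment of the number of primes among `k + m ^ 3`, `m ≤ M`, over `k ≤ X`.
-/

namespace Pool.Agent.H33.Cubic

open Finset Filter Topology Pool.Agent.H5.Short

/-- distance of two cubes -/
def cd (m n : ℕ) : ℕ := Int.natAbs ((m : ℤ) ^ 3 - (n : ℤ) ^ 3)

theorem cd_comm (m n : ℕ) : cd m n = cd n m := by
  unfold cd
  rw [← Int.natAbs_neg]
  congr 1
  ring

theorem cd_of_lt {m n : ℕ} (h : m < n) : m ^ 3 + cd m n = n ^ 3 := by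
  have h1 : m ^ 3 < n ^ 3 := Nat.pow_lt_pow_left h (by norm_num)
  have h2 : ((m : ℤ)) ^ 3 < (n : ℤ) ^ 3 := by exact_mod_cast h1
  unfold cd
  zify
  rw [abs_of_neg (by linarith)]
  ring

theorem cd_pos {m n : ℕ} (h : m ≠ n) : 1 ≤ cd m n := by
  rcases Nat.lt_or_gt_of_ne h with h | h
  · have h1 : m ^ 3 < n ^ 3 := Nat.pow_lt_pow_left h (by norm_num)
    have := cd_of_lt h
    omega
  · have h1 : n ^ 3 < m ^ 3 := Nat.pow_lt_pow_left h (by norm_num)
    have := cd_of_lt h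
    rw [cd_comm]
    omega

theorem cd_le {m n M : ℕ} (hm : m ≤ M) (hn : n ≤ M) (h : m ≠ n) : cd m n ≤ M ^ 3 := by
  rcases Nat.lt_or_gt_of_ne h with h | h
  · have h1 : n ^ 3 ≤ M ^ 3 := Nat.pow_le_pow_left hn 3
    have := cd_of_lt h
    omega
  · have h1 : m ^ 3 ≤ M ^ 3 := Nat.pow_le_pow_left hm 3
    have := cd_of_lt h
    rw [cd_comm]
    omega

theorem dvd_cd_iff (p m n : ℕ) : p ∣ cd m n ↔ (n : ZMod p) ^ 3 = (m : ZMod p) ^ 3 := by
  unfold cd
  rw [← Int.natCast_dvd, ← ZMod.intCast_zmod_eq_zero_iff_dvd]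
  push_cast
  rw [sub_eq_zero]
  exact eq_comm

/-- large prime factors are few -/
theorem card_large (d M : ℕ) (hM : 2 ≤ M) (hd : 1 ≤ d) (hdM : d ≤ M ^ 3) :
    (d.primeFactors.filter (fun p => M < p)).card ≤ 3 := by
  set s := d.primeFactors.filter (fun p => M < p) with hs
  have h1 : M ^ s.card ≤ ∏ p ∈ s, p := by
    apply Finset.pow_card_le_prod
    intro p hp
    rw [hs, mem_filter] at hp
    exact hp.2.le
  have h2 : ∏ p ∈ s, p ≤ d := by
    refine (Nat.le_of_dvd hd ?_)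
    refine (Finset.prod_dvd_prod_of_subset s d.primeFactors _ (filter_subset _ _)).trans ?_
    exact Nat.prod_primeFactors_dvd d
  have h3 : M ^ s.card ≤ M ^ 3 := h1.trans (h2.trans hdM)
  exact (Nat.pow_le_pow_iff_right hM).1 h3

/-- average of the singular factor along differences of cubes -/
theorem sum_weight_cubes : ∃ C : ℝ, 0 < C ∧ ∀ M m : ℕ, m ∈ Icc 1 M →
    ∑ n ∈ (Icc 1 M).erase m, (1 + ∑ p ∈ (2 * cd m n).primeFactors, 1 / Real.sqrt p) ≤ C * M := by
  have hsum : Summable (fun n : ℕ => 1 / (n : ℝ) ^ ((3 : ℝ) / 2)) :=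
    Real.summable_one_div_nat_rpow.mpr (by norm_num)
  set Z := ∑' n : ℕ, 1 / (n : ℝ) ^ ((3 : ℝ) / 2) with hZ
  have hZ0 : 0 ≤ Z := tsum_nonneg fun n => by positivity
  refine ⟨5 + 6 * Z, by positivity, ?_⟩
  intro M m hm
  rw [mem_Icc] at hm
  rcases Nat.lt_or_ge M 2 with hM | hM
  · have h1 : (Icc 1 M).erase m = ∅ := by
      rw [eq_empty_iff_forall_notMem]
      intro n hn
      rw [mem_erase, mem_Icc] at hn
      omega
    rw [h1, sum_empty]
    positivity
  have h1 : ∀ n ∈ (Icc 1 M).erase m,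
      (1 + ∑ p ∈ (2 * cd m n).primeFactors, 1 / Real.sqrt p) ≤
      5 + ∑ p ∈ (Icc 1 M).filter Nat.Prime, (if p ∣ cd m n then 1 / Real.sqrt p else 0) := by
    intro n hn
    rw [mem_erase, mem_Icc] at hn
    have hd1 : 1 ≤ cd m n := cd_pos (fun h => hn.1 h.symm)
    have hd2 : cd m n ≤ M ^ 3 := cd_le hm.2 hn.2.2 (fun h => hn.1 h.symm)
    have hlarge := card_large (cd m n) M hM hd1 hd2
    set s := (cd m n).primeFactors.filter (fun p => M < p) with hs
    have hsub : (2 * cd m n).primeFactors ⊆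
        (((Icc 1 M).filter Nat.Prime).filter (fun p => p ∣ cd m n)) ∪ (s ∪ {2}) := by
      intro p hp
      rw [Nat.mem_primeFactors] at hp
      rw [mem_union, mem_union, mem_singleton, mem_filter, mem_filter, mem_Icc, hs, mem_filter,
        Nat.mem_primeFactors]
      rcases (Nat.Prime.dvd_mul hp.1).mp hp.2.1 with h | h
      · right; right
        exact (Nat.prime_dvd_prime_iff_eq hp.1 Nat.prime_two).mp h
      · rcases Nat.lt_or_ge M p with h' | h'
        · right; left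
          exact ⟨⟨hp.1, h, by omega⟩, h'⟩
        · left
          exact ⟨⟨⟨hp.1.one_lt.le, h'⟩, hp.1⟩, h⟩
    have hnn : ∀ p : ℕ, (0 : ℝ) ≤ 1 / Real.sqrt p := fun p => by positivity
    have hle1 : ∀ p : ℕ, p.Prime → 1 / Real.sqrt p ≤ 1 := by
      intro p hp
      have h2 : (1 : ℝ) ≤ p := by exact_mod_cast hp.one_lt.le
      have h3 : 1 ≤ Real.sqrt p := Real.one_le_sqrt.mpr h2
      rw [div_le_one (by positivity)]
      exact h3
    have hunion : ∀ a b : Finset ℕ, ∑ p ∈ a ∪ b, 1 / Real.sqrt p ≤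
        ∑ p ∈ a, 1 / Real.sqrt p + ∑ p ∈ b, 1 / Real.sqrt p := by
      intro a b
      have := sum_union_inter (s₁ := a) (s₂ := b) (f := fun p : ℕ => 1 / Real.sqrt p)
      have h5 : 0 ≤ ∑ p ∈ a ∩ b, 1 / Real.sqrt (p : ℝ) := sum_nonneg fun p _ => hnn p
      linarith
    have hb : ∑ p ∈ s ∪ {2}, 1 / Real.sqrt (p : ℝ) ≤ 4 := by
      refine (hunion _ _).trans ?_
      rw [sum_singleton]
      have h6 : ∑ p ∈ s, 1 / Real.sqrt (p : ℝ) ≤ ∑ p ∈ s, (1 : ℝ) := by
        apply sum_le_sum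
        intro p hp
        rw [hs, mem_filter, Nat.mem_primeFactors] at hp
        exact hle1 p hp.1.1
      rw [sum_const, nsmul_eq_mul, mul_one] at h6
      have h7 : ((s.card : ℕ) : ℝ) ≤ 3 := by exact_mod_cast hlarge
      have h8 := hle1 2 Nat.prime_two
      push_cast at h8 ⊢
      linarith
    have h9 : ∑ p ∈ (2 * cd m n).primeFactors, 1 / Real.sqrt (p : ℝ) ≤
        ∑ p ∈ ((Icc 1 M).filter Nat.Prime).filter (fun p => p ∣ cd m n), 1 / Real.sqrt (p : ℝ)
          + 4 := by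
      refine (sum_le_sum_of_subset_of_nonneg hsub fun p _ _ => hnn p).trans ?_
      refine (hunion _ _).trans ?_
      linarith
    rw [sum_filter] at h9
    linarith
  refine (sum_le_sum h1).trans ?_
  rw [sum_add_distrib, sum_comm]
  have h6 : ∀ p ∈ (Icc 1 M).filter Nat.Prime,
      ∑ n ∈ (Icc 1 M).erase m, (if p ∣ cd m n then 1 / Real.sqrt (p : ℝ) else 0) ≤
      6 * (M : ℝ) * (1 / (p : ℝ) ^ ((3 : ℝ) / 2)) := by
    intro p hp
    rw [mem_filter, mem_Icc] at hp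
    haveI : Fact p.Prime := ⟨hp.2⟩
    have hp0 : (0 : ℝ) < p := by exact_mod_cast hp.2.pos
    rw [← sum_filter, sum_const, nsmul_eq_mul]
    have h7 : ((((Icc 1 M).erase m).filter (fun n => p ∣ cd m n)).card : ℝ) ≤ 6 * M / p := by
      have h8 : (((Icc 1 M).erase m).filter (fun n => p ∣ cd m n)).card ≤ 3 * (M / p + 1) := by
        refine le_trans (card_le_card ?_) ((card_classes M p
          (univ.filter (fun x : ZMod p => x ^ 3 = (m : ZMod p) ^ 3))).trans ?_)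
        · intro n hn
          rw [mem_filter, mem_erase, dvd_cd_iff] at hn
          rw [mem_filter, mem_filter]
          exact ⟨hn.1.2, mem_univ _, hn.2⟩
        · exact Nat.mul_le_mul_right _ (card_cube_roots p _)
      have h9 : ((M / p : ℕ) : ℝ) ≤ M / p := Nat.cast_div_le
      have h10 : (1 : ℝ) ≤ M / p := by
        rw [le_div_iff₀ hp0, one_mul]
        exact_mod_cast hp.1.2
      have h11 : ((((Icc 1 M).erase m).filter (fun n => p ∣ cd m n)).card : ℝ) ≤
          3 * (((M / p : ℕ) : ℝ) + 1) := by exact_mod_cast h8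
      have h12 : 6 * (M : ℝ) / p = 6 * ((M : ℝ) / p) := by ring
      rw [h12]
      linarith
    have h9 : (p : ℝ) ^ ((3 : ℝ) / 2) = p * Real.sqrt p := by
      rw [Real.sqrt_eq_rpow, show (3 : ℝ) / 2 = 1 + 1 / 2 by norm_num, Real.rpow_add hp0,
        Real.rpow_one]
    rw [h9]
    calc ((((Icc 1 M).erase m).filter (fun n => p ∣ cd m n)).card : ℝ) * (1 / Real.sqrt p)
        ≤ (6 * M / p) * (1 / Real.sqrt p) := by gcongr
      _ = _ := by field_simp
  have h10 : ∑ p ∈ (Icc 1 M).filter Nat.Prime, 6 * (M : ℝ) * (1 / (p : ℝ) ^ ((3 : ℝ) / 2)) ≤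
      6 * M * Z := by
    rw [← mul_sum]
    gcongr
    exact hsum.sum_le_tsum _ (fun n _ => by positivity)
  have h11 : ∑ _n ∈ (Icc 1 M).erase m, (5 : ℝ) ≤ 5 * M := by
    rw [sum_const, nsmul_eq_mul]
    have h12 : (((Icc 1 M).erase m).card : ℝ) ≤ M := by
      have h13 : ((Icc 1 M).erase m).card ≤ M := by
        calc _ ≤ (Icc 1 M).card := card_le_card (erase_subset _ _)
          _ = M := by rw [Nat.card_Icc]; omega
      exact_mod_cast h13
    linarith
  have := (sum_le_sum h6).trans h10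
  linarith

/-- Second moment bound along cubes. -/
theorem second_cubes : ∃ C : ℝ, 0 < C ∧ ∀ X M : ℕ, 2 ≤ X → 1 ≤ M → M ^ 3 ≤ X →
    ∑ k ∈ Icc 1 X, (nk k M : ℝ) ^ 2 ≤
      C * (M * X / Real.log X + (M : ℝ) ^ 2 * X / (Real.log X) ^ 2) := by
  obtain ⟨C1, hC1, hpi⟩ := pi_le
  obtain ⟨C2, hC2, hpairs⟩ := pairs
  obtain ⟨C3, hC3, hw⟩ := sum_weight_cubes
  refine ⟨2 * C1 + 2 * C2 * C3, by positivity, ?_⟩
  intro X M hX hM hMX
  have hXR : (2 : ℝ) ≤ X := by exact_mod_cast hX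
  have hX0 : (0 : ℝ) < X := by linarith
  have hlog : 0 < Real.log X := Real.log_pos (by linarith)
  have hlog2 : Real.log X ≤ Real.log ((2 * X : ℕ) : ℝ) := by
    apply Real.log_le_log hX0
    push_cast
    linarith
  have hlog20 : 0 < Real.log ((2 * X : ℕ) : ℝ) := lt_of_lt_of_le hlog hlog2
  set B : ℕ → ℕ → ℝ := fun m n => ∑ k ∈ Icc 1 X,
    (if (m ^ 3 + k).Prime then (1 : ℝ) else 0) * (if (n ^ 3 + k).Prime then (1 : ℝ) else 0) with hB
  have hBsymm : ∀ m n, B m n = B n m := by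
    intro m n
    simp only [hB]
    exact sum_congr rfl fun k _ => mul_comm _ _
  have hsq : ∀ k, (nk k M : ℝ) ^ 2 = ∑ m ∈ Icc 1 M, ∑ n ∈ Icc 1 M,
      (if (m ^ 3 + k).Prime then (1 : ℝ) else 0) * (if (n ^ 3 + k).Prime then (1 : ℝ) else 0) := by
    intro k
    have h1 : (nk k M : ℝ) = ∑ m ∈ Icc 1 M, (if (m ^ 3 + k).Prime then (1 : ℝ) else 0) := by
      unfold nk
      rw [← sum_filter, sum_const, nsmul_eq_mul, mul_one]
    rw [h1, sq, sum_mul_sum]
  have htot : ∑ k ∈ Icc 1 X, (nk k M : ℝ) ^ 2 = ∑ m ∈ Icc 1 M, ∑ n ∈ Icc 1 M, B m n := by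
    simp_rw [hsq]
    rw [sum_comm]
    apply sum_congr rfl
    intro m _
    rw [sum_comm]
  have hdiag : ∀ m ∈ Icc 1 M, B m m ≤ 2 * C1 * X / Real.log X := by
    intro m hm
    rw [mem_Icc] at hm
    have hm3 : m ^ 3 ≤ X := (Nat.pow_le_pow_left hm.2 3).trans hMX
    have h1 : B m m = (((Icc 1 X).filter (fun k => (m ^ 3 + k).Prime)).card : ℝ) := by
      simp only [hB]
      rw [card_filter]
      push_cast
      apply sum_congr rfl
      intro k _
      split_ifs <;> simp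
    have h2 : ((Icc 1 X).filter (fun k => (m ^ 3 + k).Prime)).card ≤
        ((Icc 1 (2 * X)).filter Nat.Prime).card := by
      apply Finset.card_le_card_of_injOn (fun k => m ^ 3 + k)
      · intro k hk
        rw [mem_coe, mem_filter, mem_Icc] at hk
        rw [mem_coe, mem_filter, mem_Icc]
        have h3 : 1 ≤ m ^ 3 + k ∧ m ^ 3 + k ≤ 2 * X := ⟨by omega, by omega⟩
        exact ⟨h3, hk.2⟩
      · intro a _ b _ hab
        have hab' : m ^ 3 + a = m ^ 3 + b := hab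
        omega
    have h3 := hpi (2 * X) (by omega)
    rw [h1]
    calc (((Icc 1 X).filter (fun k => (m ^ 3 + k).Prime)).card : ℝ)
        ≤ (((Icc 1 (2 * X)).filter Nat.Prime).card : ℝ) := by exact_mod_cast h2
      _ ≤ C1 * ((2 * X : ℕ) : ℝ) / Real.log ((2 * X : ℕ) : ℝ) := h3
      _ ≤ C1 * ((2 * X : ℕ) : ℝ) / Real.log X := by gcongr
      _ = 2 * C1 * X / Real.log X := by push_cast; ring
  have hoff1 : ∀ m n, m ∈ Icc 1 M → n ∈ Icc 1 M → m < n → B m n ≤
      2 * C2 * X / (Real.log X) ^ 2 * (1 + ∑ p ∈ (2 * cd m n).primeFactors, 1 / Real.sqrt p) := by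
    intro m n hm hn hmn
    rw [mem_Icc] at hm hn
    have hm3 : m ^ 3 ≤ X := (Nat.pow_le_pow_left hm.2 3).trans hMX
    have hd1 : 1 ≤ cd m n := cd_pos hmn.ne
    have hd2 : cd m n ≤ X := (cd_le hm.2 hn.2 hmn.ne).trans hMX
    have hcd := cd_of_lt hmn
    have h1 : B m n = (((Icc 1 X).filter
        (fun k => (m ^ 3 + k).Prime ∧ (n ^ 3 + k).Prime)).card : ℝ) := by
      simp only [hB]
      rw [card_filter]
      push_cast
      apply sum_congr rfl
      intro k _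
      by_cases h5 : (m ^ 3 + k).Prime <;> by_cases h6 : (n ^ 3 + k).Prime <;> simp [h5, h6]
    have h2 : ((Icc 1 X).filter (fun k => (m ^ 3 + k).Prime ∧ (n ^ 3 + k).Prime)).card ≤
        ((Icc 1 (2 * X)).filter (fun p => p.Prime ∧ (p + cd m n).Prime)).card := by
      apply Finset.card_le_card_of_injOn (fun k => m ^ 3 + k)
      · intro k hk
        rw [mem_coe, mem_filter, mem_Icc] at hk
        rw [mem_coe, mem_filter, mem_Icc]
        have h3 : 1 ≤ m ^ 3 + k ∧ m ^ 3 + k ≤ 2 * X := ⟨by omega, by omega⟩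
        refine ⟨h3, hk.2.1, ?_⟩
        have h4 : m ^ 3 + k + cd m n = n ^ 3 + k := by omega
        rw [h4]
        exact hk.2.2
      · intro a _ b _ hab
        have hab' : m ^ 3 + a = m ^ 3 + b := hab
        omega
    have h3 := hpairs (2 * X) (cd m n) (by omega) hd1 (by omega)
    have hw0 : 0 ≤ 1 + ∑ p ∈ (2 * cd m n).primeFactors, 1 / Real.sqrt (p : ℝ) := by
      have : 0 ≤ ∑ p ∈ (2 * cd m n).primeFactors, 1 / Real.sqrt (p : ℝ) :=
        sum_nonneg fun p _ => by positivity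
      linarith
    rw [h1]
    calc (((Icc 1 X).filter (fun k => (m ^ 3 + k).Prime ∧ (n ^ 3 + k).Prime)).card : ℝ)
        ≤ (((Icc 1 (2 * X)).filter (fun p => p.Prime ∧ (p + cd m n).Prime)).card : ℝ) := by
          exact_mod_cast h2
      _ ≤ C2 * (1 + ∑ p ∈ (2 * cd m n).primeFactors, 1 / Real.sqrt (p : ℝ)) *
            ((2 * X : ℕ) : ℝ) / (Real.log ((2 * X : ℕ) : ℝ)) ^ 2 := h3
      _ ≤ C2 * (1 + ∑ p ∈ (2 * cd m n).primeFactors, 1 / Real.sqrt (p : ℝ)) *
            ((2 * X : ℕ) : ℝ) / (Real.log X) ^ 2 := by gcongr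
      _ = _ := by push_cast; ring
  have hoff : ∀ m n, m ∈ Icc 1 M → n ∈ Icc 1 M → m ≠ n → B m n ≤
      2 * C2 * X / (Real.log X) ^ 2 * (1 + ∑ p ∈ (2 * cd m n).primeFactors, 1 / Real.sqrt p) := by
    intro m n hm hn hmn
    rcases Nat.lt_or_gt_of_ne hmn with h | h
    · exact hoff1 m n hm hn h
    · rw [hBsymm, cd_comm]
      exact hoff1 n m hn hm h
  have hrow : ∀ m ∈ Icc 1 M, ∑ n ∈ Icc 1 M, B m n ≤
      2 * C1 * X / Real.log X + 2 * C2 * X / (Real.log X) ^ 2 * (C3 * M) := by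
    intro m hm
    rw [← add_sum_erase _ _ hm]
    apply add_le_add (hdiag m hm)
    calc ∑ n ∈ (Icc 1 M).erase m, B m n
        ≤ ∑ n ∈ (Icc 1 M).erase m, 2 * C2 * X / (Real.log X) ^ 2 *
            (1 + ∑ p ∈ (2 * cd m n).primeFactors, 1 / Real.sqrt (p : ℝ)) := by
          apply sum_le_sum
          intro n hn
          rw [mem_erase] at hn
          exact hoff m n hm hn.2 (fun h => hn.1 h.symm)
      _ = 2 * C2 * X / (Real.log X) ^ 2 * ∑ n ∈ (Icc 1 M).erase m,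
            (1 + ∑ p ∈ (2 * cd m n).primeFactors, 1 / Real.sqrt (p : ℝ)) := by rw [mul_sum]
      _ ≤ _ := by
          apply mul_le_mul_of_nonneg_left (hw M m hm)
          positivity
  rw [htot]
  refine (sum_le_sum hrow).trans ?_
  rw [sum_const, nsmul_eq_mul, Nat.card_Icc]
  have hM0 : (0 : ℝ) ≤ M := Nat.cast_nonneg M
  have e1 : ((M + 1 - 1 : ℕ) : ℝ) = M := by simp
  rw [e1]
  have t1 : 0 ≤ (M : ℝ) * X / Real.log X := by positivity
  have t2 : 0 ≤ (M : ℝ) ^ 2 * X / (Real.log X) ^ 2 := by positivity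
  have e2 : (M : ℝ) * (2 * C1 * X / Real.log X + 2 * C2 * X / (Real.log X) ^ 2 * (C3 * M)) =
      2 * C1 * (M * X / Real.log X) + 2 * C2 * C3 * ((M : ℝ) ^ 2 * X / (Real.log X) ^ 2) := by
    ring
  rw [e2]
  nlinarith [mul_nonneg (mul_pos hC2 hC3).le t1, mul_nonneg hC1.le t2]

end Pool.Agent.H33.Cubic
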